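import Pool.Agent.Q218.HB.Stm

set_option autoImplicit false

namespace Pool.Agent.Q198.HB

open Matrix Pool.Agent.Q218.HB

theorem hm_herm {Λ : Type} [Fintype Λ] [DecidableEq Λ] (h : Λ → Λ → ℝ) (V : Λ → ℝ)
    (hs : ∀ x y, h x y = h y x) : (Hm h V).IsHermitian := by
  ext x y
  rw [Matrix.conjTranspose_apply]
  unfold Hm
  rw [hs y x]
  by_cases hxy : y = x
  · subst hxy
    simp
  · have : ¬ x = y := fun e => hxy e.symm
    simp [hxy, this]

theorem hm_symm {Λ : Type} [Fintype Λ] [DecidableEq Λ] (h : Λ → Λ → ℝ) (V : Λ → ℝ)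
    (hs : ∀ x y, h x y = h y x) : (Hm h V)ᵀ = Hm h V := by
  ext x y
  rw [Matrix.transpose_apply]
  unfold Hm
  rw [hs y x]
  by_cases hxy : y = x
  · subst hxy
    rfl
  · have : ¬ x = y := fun e => hxy e.symm
    simp [hxy, this]

theorem det_ne {Λ : Type} [Fintype Λ] [DecidableEq Λ] (h : Λ → Λ → ℝ) (V : Λ → ℝ) (z : ℂ)
    (hs : ∀ x y, h x y = h y x) (hz : z.im ≠ 0) :
    (Hm h V - z • (1 : Matrix Λ Λ ℂ)).det ≠ 0 := by
  intro h0
  obtain ⟨v, hv, hv0⟩ := Matrix.exists_mulVec_eq_zero_iff.2 h0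
  rw [Matrix.sub_mulVec, Matrix.smul_mulVec, Matrix.one_mulVec, sub_eq_zero] at hv0
  have h1 := (hm_herm h V hs).im_star_dotProduct_mulVec_self v
  rw [hv0, dotProduct_smul] at h1
  have h2 : star v ⬝ᵥ v = ((∑ x, ‖v x‖ ^ 2 : ℝ) : ℂ) := by
    rw [dotProduct]
    push_cast
    refine Finset.sum_congr rfl fun x _ => ?_
    rw [Pi.star_apply, RCLike.star_def, Complex.conj_mul']
  rw [h2] at h1
  have h3 : z.im * ∑ x, ‖v x‖ ^ 2 = 0 := by
    have h4 : (z • (((∑ x, ‖v x‖ ^ 2 : ℝ) : ℂ))).im = z.im * ∑ x, ‖v x‖ ^ 2 := by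
      rw [smul_eq_mul, Complex.mul_im, Complex.ofReal_re, Complex.ofReal_im]
      ring
    rw [← h4]
    exact h1
  rcases mul_eq_zero.1 h3 with h4 | h4
  · exact hz h4
  · refine hv (funext fun x => ?_)
    have h5 := (Finset.sum_eq_zero_iff_of_nonneg (fun x _ => by positivity)).1 h4 x (Finset.mem_univ x)
    simpa using h5

theorem inv : S_INV := by
  intro Λ _ _ h V z hs hz
  have hd : IsUnit (Hm h V - z • (1 : Matrix Λ Λ ℂ)).det := isUnit_iff_ne_zero.2 (det_ne h V z hs hz)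
  refine ⟨Matrix.mul_nonsing_inv _ hd, Matrix.nonsing_inv_mul _ hd, fun x y => ?_⟩
  have h1 : (G h V z)ᵀ = G h V z := by
    unfold G
    rw [Matrix.transpose_nonsing_inv, Matrix.transpose_sub, Matrix.transpose_smul, Matrix.transpose_one,
      hm_symm h V hs]
  calc G h V z x y = (G h V z)ᵀ y x := rfl
    _ = G h V z y x := by rw [h1]

end Pool.Agent.Q198.HB
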